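import Pool.Agent.K.MP_ac4bd0_al.C3

set_option autoImplicit false

namespace Pool.Agent.Results.MP_ac4bd0_al.No

/-- There is a finite solvable group whose order has only the prime divisors 2, 3, 5, 7 and which
embeds in no finite solvable cut group. -/
theorem result : ∃ (X : Type) (_ : Group X) (_ : Finite X), Group.IsSolvable X ∧
    (∀ p : ℕ, p.Prime → p ∣ Nat.card X → p ∈ ({2, 3, 5, 7} : Set ℕ)) ∧
    ∀ (G : Type) [Group G] [Finite G], Group.IsSolvable G →
      (∀ u : (MonoidAlgebra ℤ G)ˣ, u ∈ Subgroup.center (MonoidAlgebra ℤ G)ˣ ↔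
        ∃ z ∈ Subgroup.center G, (u : MonoidAlgebra ℤ G) = MonoidAlgebra.of ℤ G z ∨
          (u : MonoidAlgebra ℤ G) = -MonoidAlgebra.of ℤ G z) →
      ¬ ∃ f : X →* G, Function.Injective f :=
  Pool.Agent.P.MP_ac4bd0_al.No.final

end Pool.Agent.Results.MP_ac4bd0_al.No
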