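import Pool.Agent.K.MP_ac4bd0_al.C2

set_option autoImplicit false

namespace Pool.Agent.Results.MP_ac4bd0_al.NormalSylow5

/-- Every finite solvable group whose order has only the prime divisors 2, 3, 5, 7 and whose Sylow
5-subgroup is normal and elementary abelian embeds in a finite solvable cut group. -/
theorem result (H : Type) [Group H] [Finite H] [Group.IsSolvable H]
    (hπ : ∀ p : ℕ, p.Prime → p ∣ Nat.card H → p ∈ ({2, 3, 5, 7} : Set ℕ))
    (P : Sylow 5 H) (hP : (P : Subgroup H).Normal)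
    (hab : ∀ x ∈ (P : Subgroup H), ∀ y ∈ (P : Subgroup H), x * y = y * x)
    (hexp : ∀ x ∈ (P : Subgroup H), x ^ 5 = 1) :
    ∃ (G : Type) (_ : Group G) (_ : Finite G), Group.IsSolvable G ∧
      (∀ u : (MonoidAlgebra ℤ G)ˣ, u ∈ Subgroup.center (MonoidAlgebra ℤ G)ˣ ↔
        ∃ z ∈ Subgroup.center G, (u : MonoidAlgebra ℤ G) = MonoidAlgebra.of ℤ G z ∨
          (u : MonoidAlgebra ℤ G) = -MonoidAlgebra.of ℤ G z) ∧
      ∃ f : H →* G, Function.Injective f :=
  (Pool.Agent.P.MP_ac4bd0_al.emb_2357 H hπ P hP hab hexp).cut (Or.inr rfl)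

end Pool.Agent.Results.MP_ac4bd0_al.NormalSylow5
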