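import Pool.Agent.K.MP_ac4bd0_al.C2

set_option autoImplicit false

namespace Pool.Agent.Results.MP_ac4bd0_al.Solvable235

/-- Every finite solvable group whose order has only the prime divisors 2, 3, 5 embeds in a finite
solvable cut group. -/
theorem result (H : Type) [Group H] [Finite H] [Group.IsSolvable H]
    (hπ : ∀ p : ℕ, p.Prime → p ∣ Nat.card H → p ∈ ({2, 3, 5} : Set ℕ)) :
    ∃ (G : Type) (_ : Group G) (_ : Finite G), Group.IsSolvable G ∧
      (∀ u : (MonoidAlgebra ℤ G)ˣ, u ∈ Subgroup.center (MonoidAlgebra ℤ G)ˣ ↔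
        ∃ z ∈ Subgroup.center G, (u : MonoidAlgebra ℤ G) = MonoidAlgebra.of ℤ G z ∨
          (u : MonoidAlgebra ℤ G) = -MonoidAlgebra.of ℤ G z) ∧
      ∃ f : H →* G, Function.Injective f :=
  (Pool.Agent.P.MP_ac4bd0_al.emb_235 H hπ).cut (Or.inl rfl)

end Pool.Agent.Results.MP_ac4bd0_al.Solvable235
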